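import Pool.Agent.Lib.BrV.VGr
import Pool.Agent.Lib.BrV.SFinB

/-!
# Growth of all Betti numbers of `B_{2g+2}` with coefficients in `Sym^k (V_{2g} ⊗ ℝ)`, `k` fixed

`Braid (2 * g + 1)` is the braid group on `2g+2` strands (Artin presentation with `2g+1`
generators `σ_0, ..., σ_{2g}`), and `SymV g k` is its representation on the homogeneous
polynomials of degree `k` in the classes `X_0, ..., X_{2g-1}` of the curves of the chain
`c_0, ..., c_{2g}`, where `σ_i` acts by the Dehn twist about `c_i`, that is, by the algebra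
automorphism induced by the transvection `x ↦ x + ω(c_i, x) c_i` of `H_1(Σ_g; ℝ)`.
-/

namespace Pool.Agent.Results.MP_97e538_al.FixedWeightGrowth

open Pool.Agent.Lib.BrSym

/-- For every `k ≥ 2` there are natural numbers `N 1, ..., N (k+1)` with `N (k+1) = 1` and
alternating sum `0`, and a constant `C`, such that for all `g ≥ 1` and all `r` the group
`H^{2g+2-r}(B_{2g+2}; Sym^k (V_{2g} ⊗ ℝ))` is finite dimensional and its dimension differs from
`N r * g ^ (k-1) / (k! (k-1)!)` by at most `C * g ^ (k-2) / (k! (k-1)!)`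
(with `N r = 0` for `r = 0` and for `r > k + 1`). -/
theorem result (k : ℕ) (hk : 2 ≤ k) : ∃ (N : ℕ → ℕ) (C : ℝ),
    (∀ g i r : ℕ, 1 ≤ g → i + r = 2 * g + 2 →
      Module.Finite ℝ (groupCohomology (SymV g k) i) ∧
      |((k.factorial * (k - 1).factorial : ℕ) : ℝ) *
          (Module.finrank ℝ (groupCohomology (SymV g k) i) : ℝ) -
        (N r : ℝ) * (g : ℝ) ^ (k - 1)| ≤ C * (g : ℝ) ^ (k - 2)) ∧
    N (k + 1) = 1 ∧ (∀ r, r = 0 ∨ k + 1 < r → N r = 0) ∧
    ∑ r ∈ Finset.range (k + 2), (-1 : ℤ) ^ r * (N r : ℤ) = 0 := by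
  obtain ⟨N, C, d, h1, h2, h3, h4, h5⟩ := BrV.V_growth k hk
  refine ⟨N, C, ?_, h3, h4, h5⟩
  intro g i r hg hi
  have hr : Module.rank ℝ (groupCohomology (SymV g k) i) = ((d g r : ℕ) : Cardinal) :=
    BrV.sym_tr g k i r (d g r) (by omega) (h1 g r hg)
  refine ⟨?_, ?_⟩
  · rw [← Module.rank_lt_aleph0_iff, hr]
    exact Cardinal.natCast_lt_aleph0
  · rw [Module.finrank_eq_of_rank_eq hr]
    exact h2 g r hg

end Pool.Agent.Results.MP_97e538_al.FixedWeightGrowth
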