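import Pool.Agent.Lib.BrV.CSym
import Pool.Agent.Lib.BrV.CHigh
import Pool.Agent.Lib.BrV.LFin

/-!
# The lowest nonzero cohomology group of `B_{2g+2}` with coefficients in `Sym^k (V_{2g} ⊗ ℝ)`

`Braid (2 * g + 1)` is the braid group on `2g+2` strands (Artin presentation with `2g+1`
generators `σ_0, ..., σ_{2g}`), and `SymV g k` is its representation on the homogeneous
polynomials of degree `k` in the classes `X_0, ..., X_{2g-1}` of the curves of the chain
`c_0, ..., c_{2g}`, where `σ_i` acts by the Dehn twist about `c_i`, that is, by the algebra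
automorphism induced by the transvection `x ↦ x + ω(c_i, x) c_i` of `H_1(Σ_g; ℝ)`.
-/

namespace Pool.Agent.Results.MP_97e538_al.LowestDegree

open Pool.Agent.Lib.BrSym

/-- The dimension of `H^i(B_{2g+2}; Sym^k (V_{2g} ⊗ ℝ))` for all `g ≥ 1`, `k ≥ 2` and all `i`
outside the `k` degrees `2g+2-k, ..., 2g+1`: it is zero unless `i = 2g + 1 - k`, and for
`i = 2g + 1 - k` it is the number of `k`-element sets of natural numbers whose sum is
`g + 1 - ⌈k / 2⌉` (all such numbers are less than `g + 2`). -/
theorem result (g k i : ℕ) (hg : 1 ≤ g) (hk : 2 ≤ k)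
    (hi : i + k ≤ 2 * g + 1 ∨ 2 * g + 1 < i) :
    Module.rank ℝ (groupCohomology (SymV g k) i) =
      if i + k = 2 * g + 1 then
        ((((Finset.range (g + 2)).powersetCard k).filter
          (fun s : Finset ℕ => ∑ x ∈ s, x + (k + 1) / 2 = g + 1)).card : Cardinal)
      else 0 := by
  rcases eq_or_ne (i + k) (2 * g + 1) with h | h
  · rw [if_pos h]
    exact BrV.lowest g k i hg hk h
  · rw [if_neg h]
    rcases hi with hi | hi
    · exact BrV.vanishing g k i hg hk (Or.inr (lt_of_le_of_ne hi h))
    · exact BrV.coh_high (2 * g + 1) i (SymV g k) hi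

end Pool.Agent.Results.MP_97e538_al.LowestDegree
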