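import Pool.Agent.Lib.BrV.SFin

/-!
# The cohomology of `B_{2g+2}` with coefficients in `Sym^2 (V_{2g} ⊗ ℝ)`, complete answer

`Braid (2 * g + 1)` is the braid group on `2g+2` strands (Artin presentation with `2g+1`
generators `σ_0, ..., σ_{2g}`), and `SymV g k` is its representation on the homogeneous
polynomials of degree `k` in the classes `X_0, ..., X_{2g-1}` of the curves of the chain
`c_0, ..., c_{2g}`, where `σ_i` acts by the Dehn twist about `c_i`, that is, by the algebra
automorphism induced by the transvection `x ↦ x + ω(c_i, x) c_i` of `H_1(Σ_g; ℝ)`.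
-/

namespace Pool.Agent.Results.MP_97e538_al.SymSquare

open Pool.Agent.Lib.BrSym

/-- For all `g ≥ 1` the dimension of `H^i(B_{2g+2}; Sym^2 (V_{2g} ⊗ ℝ))` is `⌈g/2⌉` for
`i = 2g - 1`, `g` for `i = 2g`, `⌊g/2⌋` for `i = 2g + 1`, and `0` in all other degrees. -/
theorem result (g i : ℕ) (hg : 1 ≤ g) :
    Module.rank ℝ (groupCohomology (SymV g 2) i) =
      ((if i + 1 = 2 * g then (g + 1) / 2 else if i = 2 * g then g
        else if i = 2 * g + 1 then g / 2 else 0 : ℕ) : Cardinal) :=
  BrV.symSq g i hg

end Pool.Agent.Results.MP_97e538_al.SymSquare
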